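import Pool.Agent.MP_b9f959_al.H73.Final

namespace Pool.Agent.Results.MP_b9f959_al.RightEngelMc

open Pool.Agent.MP_b9f959_al.H73

universe u

/-- Every group with the minimal condition on centralizers satisfies `R(G) = ϱ(G)`. -/
theorem result (G : Type u) [Group G] (hG : IsMc G) : rightEngel G = rho G :=
  Set.Subset.antisymm (rightEngel_subset_rho hG) rho_subset_rightEngel

end Pool.Agent.Results.MP_b9f959_al.RightEngelMc
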